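import Mathlib

/-!
# An upper bound for the k-th prime
-/

set_option autoImplicit false

open Finset

namespace Pool.Agent.WIT

/-- the k-th prime, `P 1 = 2` -/
noncomputable def P (k : ℕ) : ℕ := Nat.nth Nat.Prime (k - 1)

lemma P_prime (k : ℕ) : (P k).Prime := Nat.prime_nth_prime _

lemma P_lt {a b : ℕ} (ha : 1 ≤ a) (hab : a < b) : P a < P b := by
  unfold P
  exact (Nat.nth_strictMono Nat.infinite_setOfPred_prime) (by omega)

lemma P_mono {a b : ℕ} (hab : a ≤ b) : P a ≤ P b := by
  unfold P
  exact (Nat.nth_strictMono Nat.infinite_setOfPred_prime).monotone (by omega)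

lemma P_add {a b : ℕ} (ha : 1 ≤ a) (hab : a ≤ b) : P a + (b - a) ≤ P b := by
  obtain ⟨d, rfl⟩ := Nat.exists_eq_add_of_le hab
  have : ∀ d, P a + d ≤ P (a + d) := by
    intro d
    induction d with
    | zero => exact le_rfl
    | succ d ih =>
      have := P_lt (a := a + d) (b := a + (d + 1)) (by omega) (by omega)
      omega
  have := this d
  omega

lemma P_gt (k : ℕ) (hk : 1 ≤ k) : k < P k := by
  have h := P_add (a := 1) (b := k) le_rfl hk
  have h1 := (P_prime 1).two_le
  omega

lemma P_le (x : ℕ) (hx : 16 ≤ x) : (P x : ℝ) ≤ 8 * x * Real.log x := by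
  set q := P x with hq
  have hpi : Nat.primeCounting q = x := by
    have h1 : Nat.primeCounting' q = x - 1 := by
      rw [hq]
      exact Nat.primeCounting'_nth_eq (x - 1)
    have h2 : Nat.primeCounting q = Nat.primeCounting' q + 1 := by
      unfold Nat.primeCounting Nat.primeCounting'
      rw [Nat.count_succ, if_pos (P_prime x)]
    omega
  have h1 := Chebyshev.psi_le_primeCounting_mul_log q
  have h2 := Chebyshev.psi_ge q
  rw [hpi] at h1
  have hxr : (16 : ℝ) ≤ x := by exact_mod_cast hx
  have hqx : (x : ℝ) < q := by exact_mod_cast P_gt x (by omega)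
  have hq0 : (16 : ℝ) < q := by linarith
  have hlq : Real.log q ≤ Real.log (q + 1) := Real.log_le_log (by linarith) (by linarith)
  have hlq0 : 0 < Real.log q := Real.log_pos (by linarith)
  have hl2 := Real.log_two_gt_d9
  have h3 : (q : ℝ) * Real.log 2 ≤ (x + 1) * Real.log (q + 1) := by
    have : (x : ℝ) * Real.log q ≤ x * Real.log (q + 1) :=
      mul_le_mul_of_nonneg_left hlq (by linarith)
    nlinarith
  have h4 : Real.log (q + 1) ≤ 2 * Real.sqrt (q + 1) := by
    have h5 := Real.log_le_sub_one_of_pos (show (0 : ℝ) < Real.sqrt (q + 1) by positivity)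
    have h6 : Real.log (q + 1) = 2 * Real.log (Real.sqrt (q + 1)) := by
      rw [Real.log_sqrt (by linarith)]
      ring
    rw [h6]
    linarith
  set s := Real.sqrt (q + 1) with hs
  have hs2 : s ^ 2 = q + 1 := Real.sq_sqrt (by linarith)
  have hs0 : 0 < s := by positivity
  have h5 : s ≤ 6 * (x + 1) := by
    have h6 : (q : ℝ) * Real.log 2 ≤ (x + 1) * (2 * s) :=
      h3.trans (mul_le_mul_of_nonneg_left h4 (by linarith))
    have h7 : (0.65 : ℝ) * s ^ 2 ≤ (q : ℝ) * Real.log 2 := by nlinarith
    by_contra hcon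
    rw [not_le] at hcon
    nlinarith
  have h6 : Real.log (q + 1) ≤ 4 * Real.log x := by
    have h7 : (q : ℝ) + 1 ≤ (x : ℝ) ^ 4 := by
      rw [← hs2]
      have h8 : s ≤ 7 * x := by linarith
      have h9 : s ^ 2 ≤ (7 * x) ^ 2 := pow_le_pow_left₀ hs0.le h8 2
      have h10 : (49 : ℝ) ≤ (x : ℝ) ^ 2 := by nlinarith
      nlinarith [sq_nonneg (x : ℝ)]
    have h8 := Real.log_le_log (by linarith) h7
    rw [Real.log_pow] at h8
    exact_mod_cast h8
  have hlx : 0 ≤ Real.log x := Real.log_nonneg (by linarith)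
  have h7 : (q : ℝ) * Real.log 2 ≤ (x + 1) * (4 * Real.log x) :=
    h3.trans (mul_le_mul_of_nonneg_left h6 (by linarith))
  have h8 : (x + 1) * (4 * Real.log x) ≤ 4.25 * x * Real.log x := by nlinarith
  nlinarith

end Pool.Agent.WIT
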