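import Mathlib
import Pool.Agent.WIT.Cheb

/-!
# Counting the solutions with short blocks
-/

set_option autoImplicit false

open Finset

namespace Pool.Agent.WIT

lemma same_quot {n m m' z K k k' : ℕ} (hm : 1 ≤ m) (hmm : m < m')
    (h1 : P m + P n = (m + n) * k) (h2 : P m' + P n = (m' + n) * k')
    (hd : P m' < P m + z) (hz : z ≤ m) (hK : k ≤ K) (hKz : K * z ≤ m) : k = k' := by
  have h3 := P_add hm hmm.le
  obtain ⟨e, rfl⟩ := Nat.exists_eq_add_of_le hmm.le
  obtain ⟨d, hd'⟩ := Nat.exists_eq_add_of_le (P_mono hmm.le)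
  have he : e ≤ d := by omega
  have he1 : 1 ≤ e := by omega
  have hdz : d < z := by omega
  have h4 : (m + e + n) * k' = (m + n) * k + d := by
    rw [← h1, ← h2, hd']
    omega
  have hez : e * k ≤ m := by
    calc e * k ≤ z * K := Nat.mul_le_mul (by omega) hK
      _ = K * z := mul_comm _ _
      _ ≤ m := hKz
  rcases lt_trichotomy k k' with h | h | h
  · exfalso
    have h5 : (m + e + n) * (k + 1) ≤ (m + e + n) * k' := Nat.mul_le_mul_left _ h
    have h6 : (m + e + n) * (k + 1) = (m + n) * k + e * k + (m + e + n) := by ring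
    omega
  · exact h
  · exfalso
    have h5 : (m + e + n) * (k' + 1) ≤ (m + e + n) * k := Nat.mul_le_mul_left _ h
    have h6 : (m + e + n) * (k' + 1) = (m + e + n) * k' + (m + e + n) := by ring
    have h7 : (m + e + n) * k = (m + n) * k + e * k := by ring
    omega

/-- the block of a prime -/
noncomputable def blk (z m : ℕ) : ℕ := (P m - 2) / z

lemma blk_mono {z a b : ℕ} (h : a ≤ b) : blk z a ≤ blk z b := by
  unfold blk
  exact Nat.div_le_div_right (by have := P_mono h; omega)

lemma blk_mem {z m : ℕ} (hz : 0 < z) :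
    P m - 1 ∈ Ioc (blk z m * z) (blk z m * z + z) := by
  have h1 := (P_prime m).two_le
  have h2 := Nat.div_add_mod (P m - 2) z
  have h3 := Nat.mod_lt (P m - 2) hz
  unfold blk
  rw [mem_Ioc]
  rw [mul_comm] at h2
  omega

lemma blk_close {z a b : ℕ} (hz : 0 < z) (hab : blk z a = blk z b) : P b < P a + z := by
  have h1 := mem_Ioc.1 (blk_mem (m := a) hz)
  have h2 := mem_Ioc.1 (blk_mem (m := b) hz)
  have h3 := (P_prime a).two_le
  have h4 := (P_prime b).two_le
  rw [hab] at h1
  omega

open Classical in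
theorem count (x n z J K B m0 y : ℕ) (T : ℝ) (hT : 0 ≤ T) (hz0 : 0 < z) (hJ : 0 < J)
    (hz : z ≤ m0) (hKz : K * z ≤ m0) (hy : y ≤ m0)
    (hK : ∀ m, m0 < m → m ≤ x → (P m + P n) / (m + n) ≤ K)
    (hB : ∀ m, m ≤ x → blk z m < B)
    (hS : ∀ b h, 1 ≤ h → h ≤ K * J →
      (((Ioc (b * z) (b * z + z)).filter (fun t => (t + 1).Prime ∧ (t + 1 + h).Prime ∧
        y < t + 1)).card : ℝ) ≤ T) :
    (((Icc 1 x).filter (fun m => (m + n) ∣ (P m + P n))).card : ℝ) ≤
      m0 + ((x / J : ℕ) + 1) + B * J + B * J * T := by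
  set Q : ℕ → Prop := fun m => 1 ≤ m ∧ m ≤ x ∧ (m + n) ∣ (P m + P n) with hQ
  set S2 := (Icc 1 x).filter (fun m => Q m ∧ ∀ j, 1 ≤ j → j ≤ J → ¬ Q (m + j)) with hS2
  set S3 := (Icc 1 x).filter (fun m => Q m ∧ ∃ j, 1 ≤ j ∧ j ≤ J ∧ Q (m + j) ∧
    blk z m ≠ blk z (m + j)) with hS3
  set F : ℕ × ℕ → Finset ℕ := fun bj => (Icc 1 x).filter (fun m => Q m ∧ m0 < m ∧
    Q (m + bj.2) ∧ blk z m = bj.1 ∧ blk z (m + bj.2) = bj.1) with hF
  have hsub : (Icc 1 x).filter (fun m => (m + n) ∣ (P m + P n)) ⊆
      Icc 1 m0 ∪ (S2 ∪ (S3 ∪ (range B ×ˢ Icc 1 J).biUnion F)) := by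
    intro m hm
    rw [mem_filter, mem_Icc] at hm
    have hQm : Q m := ⟨hm.1.1, hm.1.2, hm.2⟩
    rw [mem_union, mem_union, mem_union]
    by_cases h1 : m ≤ m0
    · left
      rw [mem_Icc]
      exact ⟨hm.1.1, h1⟩
    right
    by_cases h2 : ∀ j, 1 ≤ j → j ≤ J → ¬ Q (m + j)
    · left
      rw [hS2, mem_filter, mem_Icc]
      exact ⟨hm.1, hQm, h2⟩
    right
    push Not at h2
    obtain ⟨j, hj1, hjJ, hj⟩ := h2
    by_cases h3 : blk z m = blk z (m + j)
    · right
      rw [mem_biUnion]
      refine ⟨(blk z m, j), ?_, ?_⟩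
      · rw [mem_product, mem_range, mem_Icc]
        exact ⟨hB m hm.1.2, hj1, hjJ⟩
      · rw [hF, mem_filter, mem_Icc]
        exact ⟨hm.1, hQm, by omega, hj, rfl, h3.symm⟩
    · left
      rw [hS3, mem_filter, mem_Icc]
      exact ⟨hm.1, hQm, j, hj1, hjJ, hj, h3⟩
  have c1 : (Icc 1 m0).card = m0 := by rw [Nat.card_Icc]; omega
  have c2 : S2.card ≤ x / J + 1 := by
    rw [← card_range (x / J + 1)]
    apply card_le_card_of_injOn (fun m => m / J)
    · intro m hm
      rw [mem_coe, hS2, mem_filter, mem_Icc] at hm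
      rw [mem_coe, mem_range]
      exact Nat.lt_succ_of_le (Nat.div_le_div_right hm.1.2)
    · have key : ∀ a b, a ∈ S2 → b ∈ S2 → a / J = b / J → ¬ a < b := by
        intro a b ha hb hab hlt
        rw [hS2, mem_filter] at ha hb
        have h1 := Nat.div_add_mod a J
        have h2 := Nat.div_add_mod b J
        have h3 := Nat.mod_lt b hJ
        rw [hab] at h1
        apply ha.2.2 (b - a) (by omega) (by omega)
        rw [show a + (b - a) = b by omega]
        exact hb.2.1
      intro a ha b hb hab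
      by_contra hne
      rcases Nat.lt_or_gt_of_ne hne with h | h
      · exact key a b ha hb hab h
      · exact key b a hb ha hab.symm h
  have c3 : S3.card ≤ B * J := by
    have : (range B ×ˢ range J).card = B * J := by rw [card_product, card_range, card_range]
    rw [← this]
    apply card_le_card_of_injOn (fun m => (blk z m, m % J))
    · intro m hm
      rw [mem_coe, hS3, mem_filter, mem_Icc] at hm
      rw [mem_coe, mem_product, mem_range, mem_range]
      exact ⟨hB m hm.1.2, Nat.mod_lt _ hJ⟩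
    · have key : ∀ a b, a ∈ S3 → b ∈ S3 → blk z a = blk z b → a % J = b % J → ¬ a < b := by
        intro a b ha hb hab hmod hlt
        rw [hS3, mem_filter] at ha hb
        obtain ⟨j, hj1, hjJ, hQj, hne⟩ := ha.2.2
        have h1 : J ∣ b - a := (Nat.modEq_iff_dvd' hlt.le).1 hmod
        have h2 : J ≤ b - a := Nat.le_of_dvd (by omega) h1
        apply hne
        have h3 := blk_mono (z := z) (show a ≤ a + j by omega)
        have h4 := blk_mono (z := z) (show a + j ≤ b by omega)
        omega
      intro a ha b hb hab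
      rw [Prod.mk.injEq] at hab
      by_contra hne
      rcases Nat.lt_or_gt_of_ne hne with h | h
      · exact key a b ha hb hab.1 hab.2 h
      · exact key b a hb ha hab.1.symm hab.2.symm h
  have c4 : ∀ bj ∈ range B ×ˢ Icc 1 J, ((F bj).card : ℝ) ≤ T := by
    rintro ⟨b, j⟩ hbj
    rw [mem_product, mem_range, mem_Icc] at hbj
    obtain ⟨hb, hj1, hjJ⟩ := hbj
    simp only at hb hj1 hjJ
    rcases (F (b, j)).eq_empty_or_nonempty with h0 | ⟨m1, hm1⟩
    · rw [h0]
      simpa using hT
    have hmemF : ∀ m, m ∈ F (b, j) → Q m ∧ m0 < m ∧ Q (m + j) ∧ blk z m = b ∧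
        blk z (m + j) = b := fun m hm => (mem_filter.1 hm).2
    have hquot : ∀ m, Q m → P m + P n = (m + n) * ((P m + P n) / (m + n)) := fun m hm =>
      (Nat.mul_div_cancel' hm.2.2).symm
    have hsame : ∀ a c, Q a → m0 < a → Q c → m0 < c → blk z a = b → blk z c = b →
        (P a + P n) / (a + n) = (P c + P n) / (c + n) := by
      have aux : ∀ a c, Q a → m0 < a → Q c → blk z a = b → blk z c = b → a < c →
          (P a + P n) / (a + n) = (P c + P n) / (c + n) := by
        intro a c ha ha0 hc hba hbc hac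
        exact same_quot ha.1 hac (hquot a ha) (hquot c hc) (blk_close hz0 (hba.trans hbc.symm))
          (by omega) (hK a ha0 ha.2.1) (by omega)
      intro a c ha ha0 hc hc0 hba hbc
      rcases lt_trichotomy a c with h | h | h
      · exact aux a c ha ha0 hc hba hbc h
      · rw [h]
      · exact (aux c a hc hc0 ha hbc hba h).symm
    set k := (P m1 + P n) / (m1 + n) with hk
    obtain ⟨q1, q2, q3, q4, q5⟩ := hmemF m1 hm1
    have hstep : ∀ m, m ∈ F (b, j) → P (m + j) = P m + k * j := by
      intro m hm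
      obtain ⟨r1, r2, r3, r4, r5⟩ := hmemF m hm
      have e1 : (P m + P n) / (m + n) = k := hsame m m1 r1 r2 q1 q2 r4 q4
      have e2 : (P (m + j) + P n) / (m + j + n) = k :=
        hsame (m + j) m1 r3 (by omega) q1 q2 r5 q4
      have e3 := hquot m r1
      have e4 := hquot (m + j) r3
      rw [e1] at e3
      rw [e2] at e4
      have e5 : (m + j + n) * k = (m + n) * k + k * j := by ring
      omega
    have hkK : k ≤ K := hK m1 q2 q1.2.1
    have hh1 : 1 ≤ k * j := by
      have h1 := hstep m1 hm1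
      have h2 := P_lt q1.1 (show m1 < m1 + j by omega)
      omega
    have hh2 : k * j ≤ K * J := Nat.mul_le_mul hkK hjJ
    refine le_trans ?_ (hS b (k * j) hh1 hh2)
    have : (F (b, j)).card ≤ ((Ioc (b * z) (b * z + z)).filter (fun t => (t + 1).Prime ∧
        (t + 1 + k * j).Prime ∧ y < t + 1)).card := by
      apply card_le_card_of_injOn (fun m => P m - 1)
      · intro m hm
        rw [mem_coe] at hm
        obtain ⟨r1, r2, r3, r4, r5⟩ := hmemF m hm
        have h1 := (P_prime m).two_le
        have h2 := P_gt m r1.1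
        rw [mem_coe, mem_filter]
        refine ⟨?_, ?_, ?_, ?_⟩
        · rw [← r4]
          exact blk_mem hz0
        · rw [show P m - 1 + 1 = P m by omega]
          exact P_prime m
        · rw [show P m - 1 + 1 = P m by omega, ← hstep m hm]
          exact P_prime _
        · show y < P m - 1 + 1
          omega
      · intro a ha c hc hac
        rw [mem_coe] at ha hc
        simp only at hac
        obtain ⟨r1, -, -, -, -⟩ := hmemF a ha
        obtain ⟨s1, -, -, -, -⟩ := hmemF c hc
        have h1 := (P_prime a).two_le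
        have h2 := (P_prime c).two_le
        by_contra hne
        rcases Nat.lt_or_gt_of_ne hne with h | h
        · have := P_lt r1.1 h
          omega
        · have := P_lt s1.1 h
          omega
    exact_mod_cast this
  have c5 : (((range B ×ˢ Icc 1 J).biUnion F).card : ℝ) ≤ B * J * T := by
    calc (((range B ×ˢ Icc 1 J).biUnion F).card : ℝ)
        ≤ ((∑ bj ∈ range B ×ˢ Icc 1 J, (F bj).card : ℕ) : ℝ) := by
          exact_mod_cast card_biUnion_le
      _ = ∑ bj ∈ range B ×ˢ Icc 1 J, ((F bj).card : ℝ) := by push_cast; rfl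
      _ ≤ ∑ _bj ∈ range B ×ˢ Icc 1 J, T := Finset.sum_le_sum c4
      _ = B * J * T := by
          rw [Finset.sum_const, card_product, card_range, Nat.card_Icc, nsmul_eq_mul]
          push_cast
          simp
  have hcard := (card_le_card hsub).trans ((card_union_le _ _).trans (Nat.add_le_add_left
    ((card_union_le _ _).trans (Nat.add_le_add_left (card_union_le _ _) _)) _))
  have hcard' : (((Icc 1 x).filter (fun m => (m + n) ∣ (P m + P n))).card : ℝ) ≤
      (Icc 1 m0).card + (S2.card + (S3.card +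
        ((range B ×ˢ Icc 1 J).biUnion F).card)) := by exact_mod_cast hcard
  have c2' : (S2.card : ℝ) ≤ (x / J : ℕ) + 1 := by exact_mod_cast c2
  have c3' : (S3.card : ℝ) ≤ B * J := by exact_mod_cast c3
  rw [c1] at hcard'
  linarith

end Pool.Agent.WIT
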