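import Mathlib
import Pool.Agent.TSP.Params

/-!
# The two-form sieve on an arbitrary interval
-/

set_option autoImplicit false

open Finset

namespace Pool.Agent.WIT

open Pool.Agent.TSP
open Pool.Agent.Cyclic (pr mem_pr sum_upto pr_mono)

open Classical in
/-- the sieve bound -/
theorem sieve2m (m b a : ℕ) (hb : b ≠ 0) (hab : a ≠ b) (z r Y c bz : ℕ) (hz : 2 ≤ z) (hc : 1 ≤ c)
    (hbz : 1 ≤ bz) (hz2 : z ≤ 2 ^ bz)
    (hcard : (b * ((a : ℤ) - b).natAbs).primeFactors.card ≤ 4 * 2 ^ c) :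
    (((Ioc m (m + Y)).filter (fun t => ∀ l ∈ pr z, ¬ l ∣ t + 1 ∧ ¬ l ∣ b * t + a)).card : ℝ) ≤
      Y * (Real.exp (2 * (9 + 4 * Real.log c)) / Real.log (z + 1)) ^ 2
      + Y * (Real.exp (-(2 * r : ℕ)) * Real.exp (2 * Real.exp 1 * (5 + 4 * Real.log bz)))
      + (z : ℝ) ^ (2 * r) * Real.exp 4 := by
  set N : ℕ := b * ((a : ℤ) - b).natAbs with hN
  have hN0 : N ≠ 0 := by
    rw [hN]
    refine mul_ne_zero hb ?_
    rw [Int.natAbs_ne_zero, sub_ne_zero]
    exact_mod_cast hab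
  set P := (pr z).filter (fun l => ¬ l ∣ N) with hP
  have hPp : ∀ l ∈ P, l.Prime := fun l hl => (mem_pr.1 (mem_filter.1 hl).1).2
  have hrho : ∀ l ∈ P, rho (B2 b a) l = 2 := by
    intro l hl
    have h1 := (mem_filter.1 hl).2
    apply rho_B2 (hPp l hl)
    · intro h
      exact h1 (h.mul_right _)
    · intro h
      exact h1 ((Int.natCast_dvd.1 h).mul_left _)
  have hz1 : (1 : ℝ) ≤ z := by exact_mod_cast (by omega : 1 ≤ z)
  have hz0 : (0 : ℝ) < z := by linarith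
  have hbr := brun (per_B2 b a) P hPp m Y r z hz1
  have hsub : (((Ioc m (m + Y)).filter (fun t => ∀ l ∈ pr z, ¬ l ∣ t + 1 ∧ ¬ l ∣ b * t + a)).card : ℝ)
      ≤ (((Ioc m (m + Y)).filter (fun t => ∀ l ∈ P, ¬ B2 b a l t)).card : ℝ) := by
    have : (Ioc m (m + Y)).filter (fun t => ∀ l ∈ pr z, ¬ l ∣ t + 1 ∧ ¬ l ∣ b * t + a) ⊆
        (Ioc m (m + Y)).filter (fun t => ∀ l ∈ P, ¬ B2 b a l t) := by
      intro t ht
      rw [mem_filter] at ht ⊢
      refine ⟨ht.1, fun l hl hB => ?_⟩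
      have h1 := ht.2 l (mem_filter.1 hl).1
      rcases hB with h | h
      · exact h1.1 h
      · exact h1.2 h
    exact_mod_cast Finset.card_le_card this
  refine hsub.trans (hbr.trans ?_)
  have hlog : 0 < Real.log (z + 1) := Real.log_pos (by linarith)
  -- main term
  have m1 : ∏ l ∈ P, (1 - (rho (B2 b a) l : ℝ) / l) ≤
      (Real.exp (2 * (9 + 4 * Real.log c)) / Real.log (z + 1)) ^ 2 := by
    have e1 : ∏ l ∈ P, (1 - (rho (B2 b a) l : ℝ) / l) ≤ ∏ l ∈ P, (1 - 1 / (l : ℝ)) ^ 2 := by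
      refine Finset.prod_le_prod (fun l hl => ?_) fun l hl => ?_
      · have h2 : (2 : ℝ) ≤ l := by exact_mod_cast (hPp l hl).two_le
        rw [hrho l hl, sub_nonneg, div_le_one (by linarith)]
        push_cast
        exact h2
      · rw [hrho l hl]
        have h2 : (0 : ℝ) ≤ (1 / (l : ℝ)) ^ 2 := by positivity
        have : (1 - 1 / (l : ℝ)) ^ 2 = 1 - ((2 : ℕ) : ℝ) / l + (1 / (l : ℝ)) ^ 2 := by
          push_cast
          ring
        linarith
    rw [Finset.prod_pow] at e1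
    refine e1.trans ?_
    have e2 : (∏ l ∈ P, (1 - 1 / (l : ℝ))) * (∏ l ∈ (pr z).filter (fun p => p ∣ N), (1 - 1 / (l : ℝ)))
        = ∏ l ∈ pr z, (1 - 1 / (l : ℝ)) := by
      rw [mul_comm, hP, Finset.prod_filter_mul_prod_filter_not]
    have e3 : 0 < ∏ l ∈ (pr z).filter (fun p => p ∣ N), (1 - 1 / (l : ℝ)) :=
      Finset.prod_pos fun l hl => one_sub_inv_pos (mem_pr.1 (mem_filter.1 hl).1).2
    have e4 : 0 ≤ ∏ l ∈ P, (1 - 1 / (l : ℝ)) :=
      Finset.prod_nonneg fun l hl => (one_sub_inv_pos (hPp l hl)).le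
    apply pow_le_pow_left₀ e4
    have e5 := mertens z
    have e6 := prodH N z c hN0 hc hcard
    rw [le_div_iff₀ hlog]
    have e7 : ∏ l ∈ P, (1 - 1 / (l : ℝ)) = (∏ l ∈ pr z, (1 - 1 / (l : ℝ))) *
        (∏ l ∈ (pr z).filter (fun p => p ∣ N), (1 - 1 / (l : ℝ)))⁻¹ := by
      rw [← e2, mul_assoc, mul_inv_cancel₀ e3.ne', mul_one]
    calc (∏ l ∈ P, (1 - 1 / (l : ℝ))) * Real.log (z + 1)
        = ((∏ l ∈ pr z, (1 - 1 / (l : ℝ))) * Real.log (z + 1)) *
          (∏ l ∈ (pr z).filter (fun p => p ∣ N), (1 - 1 / (l : ℝ)))⁻¹ := by rw [e7]; ring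
      _ ≤ 1 * (∏ l ∈ (pr z).filter (fun p => p ∣ N), (1 - 1 / (l : ℝ)))⁻¹ :=
          mul_le_mul_of_nonneg_right e5 (inv_nonneg.2 e3.le)
      _ ≤ Real.exp (2 * (9 + 4 * Real.log c)) := by rw [one_mul]; exact e6
  have hsum : ∑ l ∈ P, 1 / (l : ℝ) ≤ 5 + 4 * Real.log bz :=
    (Finset.sum_le_sum_of_subset_of_nonneg ((Finset.filter_subset _ _).trans (pr_mono hz2))
      (fun _ _ _ => by positivity)).trans (sum_upto bz hbz)
  have m2 : ∏ l ∈ P, (1 + Real.exp 1 * ((rho (B2 b a) l : ℝ) / l)) ≤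
      Real.exp (2 * Real.exp 1 * (5 + 4 * Real.log bz)) := by
    have e1 : ∏ l ∈ P, (1 + Real.exp 1 * ((rho (B2 b a) l : ℝ) / l)) =
        ∏ l ∈ P, (1 + 2 * Real.exp 1 * (1 / (l : ℝ))) := by
      refine Finset.prod_congr rfl fun l hl => ?_
      rw [hrho l hl]
      push_cast
      ring
    rw [e1]
    refine (Real.prod_one_add_le_exp_sum P (fun l => by positivity)).trans ?_
    apply Real.exp_le_exp.2
    rw [← Finset.mul_sum]
    exact mul_le_mul_of_nonneg_left hsum (by positivity)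
  have m3 : ∏ l ∈ P, (1 + (rho (B2 b a) l : ℝ) / z) ≤ Real.exp 4 := by
    have e1 : ∏ l ∈ P, (1 + (rho (B2 b a) l : ℝ) / z) = ∏ l ∈ P, (1 + 2 / (z : ℝ)) := by
      refine Finset.prod_congr rfl fun l hl => ?_
      rw [hrho l hl]
      push_cast
      ring
    rw [e1]
    refine (Real.prod_one_add_le_exp_sum P (fun l => by positivity)).trans ?_
    apply Real.exp_le_exp.2
    rw [Finset.sum_const, nsmul_eq_mul]
    have e2 : P.card ≤ z + 1 := by
      refine (Finset.card_filter_le _ _).trans ((Finset.card_filter_le _ _).trans ?_)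
      rw [card_range]
    have e3 : (P.card : ℝ) ≤ z + 1 := by exact_mod_cast e2
    calc (P.card : ℝ) * (2 / z) ≤ (z + 1) * (2 / z) :=
          mul_le_mul_of_nonneg_right e3 (by positivity)
      _ = 2 + 2 / z := by field_simp
      _ ≤ 2 + 2 / 1 := by
          have : 2 / (z : ℝ) ≤ 2 / 1 := div_le_div_of_nonneg_left (by norm_num) (by norm_num) hz1
          linarith
      _ = 4 := by norm_num
  have hY : (0 : ℝ) ≤ Y := Nat.cast_nonneg _
  gcongr


/-- the sieve bound with the chosen parameters -/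
theorem sieve2m' : ∃ C : ℝ, 0 < C ∧ ∀ (x : ℕ) (L l : ℝ), Big x L l → ∀ m b a Y : ℕ, b ≠ 0 → a ≠ b →
    b ≤ x → a ≤ 2 * x → ∀ X : ℝ, (Y : ℝ) ≤ X → Big.yy L l ≤ X →
    (((Ioc m (m + Y)).filter (fun t => ∀ p ∈ Pool.Agent.Cyclic.pr (Big.zz L l),
      ¬ p ∣ t + 1 ∧ ¬ p ∣ b * t + a)).card : ℝ) ≤ C * X * l ^ 20 / L ^ 2 := by
  refine ⟨(Real.exp 18 * 3 ^ 8 * 8000) ^ 2 + 1 + Real.exp 4, by positivity, ?_⟩
  intro x L l h m b a Y hb hab hbx hax X hYX hyX
  have hL := h.Lpos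
  have hl := h.lpos
  have hX : 0 ≤ X := (Real.exp_pos _).le.trans hyX
  have hx0 : 0 < x := by exact_mod_cast h.x0
  have hN : (b * ((a : ℤ) - b).natAbs).primeFactors.card ≤ 4 * 2 ^ Big.cc l := by
    have hN0 : b * ((a : ℤ) - b).natAbs ≠ 0 := by
      refine mul_ne_zero hb ?_
      rw [Int.natAbs_ne_zero, sub_ne_zero]
      exact_mod_cast hab
    have h1 := two_pow_card_le hN0
    set N := b * ((a : ℤ) - b).natAbs with hNdef
    have h2 : N ≤ 2 * x ^ 2 := by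
      have h3 : ((a : ℤ) - b).natAbs ≤ 2 * x := by omega
      calc N ≤ x * (2 * x) := Nat.mul_le_mul hbx h3
        _ = 2 * x ^ 2 := by ring
    have h3 : (2 : ℝ) ^ N.primeFactors.card ≤ 2 * (x : ℝ) ^ 2 := by exact_mod_cast h1.trans h2
    have h4 : (N.primeFactors.card : ℝ) * Real.log 2 ≤ Real.log 2 + 2 * L := by
      have h5 := Real.log_le_log (by positivity) h3
      rw [Real.log_pow, Real.log_mul (by norm_num) (by have := h.x0; positivity), Real.log_pow,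
        ← h.hL] at h5
      push_cast at h5
      exact h5
    have h5 := Big.log_two_gt
    have h6 := h.Lge
    have h7 : (N.primeFactors.card : ℝ) ≤ 4 * L := by nlinarith
    have h8 := h.L_le_cc
    have h9 : (N.primeFactors.card : ℝ) ≤ 4 * 2 ^ Big.cc l := by linarith
    exact_mod_cast h9
  have hz : Big.zz L l ≤ 2 ^ Big.bet L := by
    refine le_trans ?_ h.x_le
    have : (Big.zz L l : ℝ) ≤ x := by
      refine (Big.zz_le L l).trans ?_
      rw [← h.expL]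
      apply Real.exp_le_exp.2
      apply div_le_self hL.le
      have := h.one
      nlinarith
    exact_mod_cast this
  have hs := sieve2m m b a hb hab (Big.zz L l) (Big.rr l) Y (Big.cc l) (Big.bet L) h.two_le_zz
    (Big.cc_one l) (Big.bet_one L) hz hN
  refine hs.trans ?_
  have m1 : (Real.exp (2 * (9 + 4 * Real.log (Big.cc l))) / Real.log (Big.zz L l + 1)) ^ 2
      ≤ (Real.exp 18 * 3 ^ 8 * 8000) ^ 2 * l ^ 20 / L ^ 2 := by
    have e1 : Real.exp (2 * (9 + 4 * Real.log (Big.cc l))) / Real.log (Big.zz L l + 1)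
        ≤ (Real.exp 18 * 3 ^ 8 * l ^ 8) / (L / (8000 * l ^ 2)) :=
      div_le_div₀ (by positivity) h.exp_cc (by positivity) h.log_zz
    have e0 : 0 ≤ Real.exp (2 * (9 + 4 * Real.log (Big.cc l))) / Real.log (Big.zz L l + 1) := by
      apply div_nonneg (Real.exp_pos _).le
      refine le_trans ?_ h.log_zz
      positivity
    refine (pow_le_pow_left₀ e0 e1 2).trans (le_of_eq ?_)
    field_simp
  have hl20 : 1 ≤ l ^ 20 := one_le_pow₀ h.one
  have m2 : Real.exp (-(2 * Big.rr l : ℕ)) *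
      Real.exp (2 * Real.exp 1 * (5 + 4 * Real.log (Big.bet L))) ≤ l ^ 20 / L ^ 2 :=
    h.second.trans (div_le_div_of_nonneg_right hl20 (by positivity))
  have m3 : (Big.zz L l : ℝ) ^ (2 * Big.rr l) * Real.exp 4 ≤ X * (Real.exp 4 * (l ^ 20 / L ^ 2)) := by
    have e1 := h.third
    have e2 : Big.yy L l / L ^ 2 ≤ X * (l ^ 20 / L ^ 2) := by
      calc Big.yy L l / L ^ 2 ≤ X / L ^ 2 := div_le_div_of_nonneg_right hyX (by positivity)
        _ = X * (1 / L ^ 2) := by ring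
        _ ≤ X * (l ^ 20 / L ^ 2) :=
          mul_le_mul_of_nonneg_left (div_le_div_of_nonneg_right hl20 (by positivity)) hX
    have e3 := e1.trans e2
    calc (Big.zz L l : ℝ) ^ (2 * Big.rr l) * Real.exp 4 ≤ X * (l ^ 20 / L ^ 2) * Real.exp 4 :=
          mul_le_mul_of_nonneg_right e3 (Real.exp_pos _).le
      _ = X * (Real.exp 4 * (l ^ 20 / L ^ 2)) := by ring
  have hY0 : (0 : ℝ) ≤ Y := Nat.cast_nonneg _
  have e4 : (Y : ℝ) * (Real.exp (2 * (9 + 4 * Real.log (Big.cc l))) /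
      Real.log (Big.zz L l + 1)) ^ 2 ≤ X * ((Real.exp 18 * 3 ^ 8 * 8000) ^ 2 * l ^ 20 / L ^ 2) :=
    mul_le_mul hYX m1 (by positivity) hX
  have e5 : (Y : ℝ) * (Real.exp (-(2 * Big.rr l : ℕ)) *
      Real.exp (2 * Real.exp 1 * (5 + 4 * Real.log (Big.bet L)))) ≤ X * (l ^ 20 / L ^ 2) :=
    mul_le_mul hYX m2 (by positivity) hX
  have e6 : ((Real.exp 18 * 3 ^ 8 * 8000) ^ 2 + 1 + Real.exp 4) * X * l ^ 20 / L ^ 2
      = X * ((Real.exp 18 * 3 ^ 8 * 8000) ^ 2 * l ^ 20 / L ^ 2) + X * (l ^ 20 / L ^ 2)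
        + X * (Real.exp 4 * (l ^ 20 / L ^ 2)) := by ring
  rw [e6]
  linarith


end Pool.Agent.WIT
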