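import Mathlib
import Pool.Agent.WIT.Sieve
import Pool.Agent.WIT.Count

/-!
# Few witnesses: the choice of the parameters
-/

set_option autoImplicit false

open Finset

namespace Pool.Agent.WIT

open Pool.Agent.TSP

theorem big_case : ∃ C : ℝ, 0 < C ∧ ∀ (x : ℕ) (L l : ℝ), Big x L l → ∀ n : ℕ, n ≤ x →
    (((Icc 1 x).filter (fun m => (m + n) ∣ (P m + P n))).card : ℝ) ≤
      C * x * l ^ 20 / Real.sqrt L := by
  obtain ⟨C, hC, hsieve⟩ := sieve2m'
  refine ⟨4 + 34 * C, by positivity, ?_⟩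
  intro x L l h n hn
  have hL := h.Lpos
  have hLge := h.Lge
  have hl1 := h.one
  have hx0 := h.x0
  set r := Real.sqrt L with hr
  have hr2 : r ^ 2 = L := Real.sq_sqrt hL.le
  have hr1 : 80 ≤ r := by
    rw [hr]
    apply Real.le_sqrt_of_sq_le
    norm_num
    linarith
  set s := Real.sqrt x with hs
  have hs2 : s ^ 2 = x := Real.sq_sqrt hx0.le
  have hs0 : 0 < s := Real.sqrt_pos.2 hx0
  have hsexp : s = Real.exp (L / 2) := by
    rw [hs, ← h.expL, show L = L / 2 + L / 2 by ring, Real.exp_add, Real.sqrt_mul_self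
      (Real.exp_pos _).le]
    ring_nf
  have hbig : 1000 * L ^ 3 ≤ s := by
    have h1 := Real.pow_div_factorial_le_exp (L / 2) (by positivity) 5
    rw [← hsexp] at h1
    refine le_trans ?_ h1
    have h2 : ((Nat.factorial 5 : ℕ) : ℝ) = 120 := by norm_num [Nat.factorial]
    rw [h2, le_div_iff₀ (by norm_num)]
    have h3 : (3840000 : ℝ) ≤ L ^ 2 := by nlinarith
    have h4 : (L / 2) ^ 5 = L ^ 3 * L ^ 2 / 32 := by ring
    rw [h4]
    have h5 : 0 < L ^ 3 := by positivity
    nlinarith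
  have hL3 : L ≤ L ^ 3 := by nlinarith [sq_nonneg L, mul_pos hL hL]
  have hL2 : L ^ 2 ≤ L ^ 3 := by nlinarith [mul_pos hL hL]
  have hs8 : 8000 ≤ s := by linarith
  have hxge : 16 ≤ x := by
    have : (16 : ℝ) ≤ x := by
      rw [← hs2]
      nlinarith
    exact_mod_cast this
  -- the parameters
  set z := Nat.sqrt x with hz
  have hz1 : (z : ℝ) ≤ s := by
    rw [hs]
    apply Real.le_sqrt_of_sq_le
    have : z ^ 2 ≤ x := by
      rw [hz, sq]
      exact Nat.sqrt_le x
    exact_mod_cast this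
  have hz2 : s < z + 1 := by
    rw [hs, Real.sqrt_lt' (by positivity)]
    have : x < (z + 1) ^ 2 := by
      rw [hz, sq]
      exact Nat.lt_succ_sqrt x
    exact_mod_cast this
  have hz0 : 0 < z := by
    have : (0 : ℝ) < z := by linarith
    exact_mod_cast this
  set J := ⌊r⌋₊ + 1 with hJ
  have hJ1 : r ≤ J := by
    rw [hJ]
    push_cast
    exact (Nat.lt_floor_add_one r).le
  have hJ2 : (J : ℝ) ≤ 2 * r := by
    rw [hJ]
    push_cast
    have := Nat.floor_le (show 0 ≤ r by linarith)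
    linarith
  have hJ0 : 0 < J := by omega
  set m0 := ⌊(x : ℝ) / L⌋₊ with hm0
  have hm0a : (m0 : ℝ) ≤ x / L := Nat.floor_le (by positivity)
  have hm0b : (x : ℝ) / L < m0 + 1 := Nat.lt_floor_add_one _
  have hxL : 1000 * L ^ 2 * s ≤ x / L := by
    rw [le_div_iff₀ hL, ← hs2]
    nlinarith
  set K := ⌊16 * L ^ 2⌋₊ with hK
  have hK1 : (K : ℝ) ≤ 16 * L ^ 2 := Nat.floor_le (by positivity)
  set B := ⌊8 * x * L / z⌋₊ + 1 with hB
  have hBr : (B : ℝ) ≤ 17 * s * L := by
    rw [hB]
    push_cast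
    have h1 := Nat.floor_le (show 0 ≤ 8 * (x : ℝ) * L / z by positivity)
    have h2 : 8 * (x : ℝ) * L / z ≤ 16 * s * L := by
      rw [div_le_iff₀ (by exact_mod_cast hz0), ← hs2]
      have : s ≤ 2 * z := by linarith
      have h3 : 0 ≤ s * L := by positivity
      nlinarith
    nlinarith
  have hsm : 17 * L ^ 2 * s ≤ m0 := by
    have h1 : 0 ≤ L ^ 2 * s := by positivity
    have h2 : 1 ≤ L ^ 2 * s := by nlinarith [mul_pos hL hL]
    linarith
  have hzm : z ≤ m0 := by
    have : (z : ℝ) ≤ m0 := by nlinarith [mul_pos hL hL]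
    exact_mod_cast this
  have hKz : K * z ≤ m0 := by
    have : (K : ℝ) * z ≤ m0 := by
      calc (K : ℝ) * z ≤ (16 * L ^ 2) * s := mul_le_mul hK1 hz1 (by positivity) (by positivity)
        _ ≤ m0 := by
          have h1 : 0 ≤ L ^ 2 * s := by positivity
          linarith
    exact_mod_cast this
  set y := Big.zz L l with hy
  have hys : (y : ℝ) ≤ s := by
    refine (Big.zz_le L l).trans ?_
    rw [hsexp]
    apply Real.exp_le_exp.2
    apply div_le_div_of_nonneg_left hL.le (by norm_num)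
    nlinarith
  have hym : y ≤ m0 := by
    have : (y : ℝ) ≤ m0 := by nlinarith [mul_pos hL hL]
    exact_mod_cast this
  have hPx : (P x : ℝ) ≤ 8 * x * L := by
    rw [h.hL]
    exact P_le x hxge
  have hKm : ∀ m, m0 < m → m ≤ x → (P m + P n) / (m + n) ≤ K := by
    intro m hm hmx
    apply Nat.le_floor
    refine (Nat.cast_div_le).trans ?_
    have h1 : (P m : ℝ) ≤ P x := by exact_mod_cast P_mono hmx
    have h2 : (P n : ℝ) ≤ P x := by exact_mod_cast P_mono hn
    have h3 : (x : ℝ) / L ≤ m := by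
      have : (m0 : ℝ) + 1 ≤ m := by exact_mod_cast hm
      linarith
    have h4 : (0 : ℝ) ≤ n := Nat.cast_nonneg _
    have h5 : 0 < (x : ℝ) / L := by positivity
    push_cast
    rw [div_le_iff₀ (by linarith)]
    have h6 : 16 * L ^ 2 * ((x : ℝ) / L) = 16 * x * L := by
      field_simp
    have h7 : 16 * L ^ 2 * ((x : ℝ) / L) ≤ 16 * L ^ 2 * (m + n) :=
      mul_le_mul_of_nonneg_left (by linarith) (by positivity)
    linarith
  have hBm : ∀ m, m ≤ x → blk z m < B := by
    intro m hm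
    rw [hB, Nat.lt_succ_iff]
    apply Nat.le_floor
    unfold blk
    refine (Nat.cast_div_le).trans ?_
    apply div_le_div_of_nonneg_right _ (by positivity)
    have h1 : (P m : ℝ) ≤ P x := by exact_mod_cast P_mono hm
    have h2 : ((P m - 2 : ℕ) : ℝ) ≤ P m := by exact_mod_cast Nat.sub_le _ _
    linarith
  set T := C * s * l ^ 20 / L ^ 2 with hT
  have hT0 : 0 ≤ T := by positivity
  have hyy : Big.yy L l ≤ s := by
    unfold Big.yy
    rw [hsexp]
    apply Real.exp_le_exp.2
    apply div_le_div_of_nonneg_left hL.le (by norm_num)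
    linarith
  have hS : ∀ b k, 1 ≤ k → k ≤ K * J →
      (((Ioc (b * z) (b * z + z)).filter (fun t => (t + 1).Prime ∧ (t + 1 + k).Prime ∧
        y < t + 1)).card : ℝ) ≤ T := by
    intro b k hk1 hk2
    have hkx : k + 1 ≤ 2 * x := by
      have h1 : ((K * J : ℕ) : ℝ) ≤ x := by
        push_cast
        have h2 : (K : ℝ) * J ≤ (16 * L ^ 2) * (2 * r) :=
          mul_le_mul hK1 hJ2 (by positivity) (by positivity)
        have h3 : r ≤ L := by nlinarith
        have h4 : (16 * L ^ 2) * (2 * r) ≤ 32 * L ^ 3 := by nlinarith [mul_pos hL hL]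
        have h5 : s ≤ x := by
          rw [← hs2]
          nlinarith
        linarith [pow_pos hL 3]
      have h2 : K * J ≤ x := by exact_mod_cast h1
      omega
    have h1 := hsieve x L l h (b * z) 1 (k + 1) z one_ne_zero (by omega) (by omega) hkx s hz1 hyy
    refine le_trans ?_ h1
    have : ((Ioc (b * z) (b * z + z)).filter (fun t => (t + 1).Prime ∧ (t + 1 + k).Prime ∧
        y < t + 1)) ⊆ (Ioc (b * z) (b * z + z)).filter (fun t => ∀ p ∈ Pool.Agent.Cyclic.pr
        (Big.zz L l), ¬ p ∣ t + 1 ∧ ¬ p ∣ 1 * t + (k + 1)) := by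
      intro t ht
      rw [mem_filter] at ht ⊢
      refine ⟨ht.1, fun p hp => ?_⟩
      rw [Pool.Agent.Cyclic.mem_pr] at hp
      obtain ⟨q1, q2, q3⟩ := ht.2
      constructor
      · intro hd
        have := (Nat.prime_dvd_prime_iff_eq hp.2 q1).1 hd
        omega
      · intro hd
        rw [show 1 * t + (k + 1) = t + 1 + k by ring] at hd
        have := (Nat.prime_dvd_prime_iff_eq hp.2 q2).1 hd
        omega
    exact_mod_cast card_le_card this
  have hcount := count x n z J K B m0 y T hT0 hz0 hJ0 hzm hKz hym hKm hBm hS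
  refine hcount.trans ?_
  have hl20 : 1 ≤ l ^ 20 := one_le_pow₀ hl1
  have hr0 : 0 < r := by linarith
  -- the four terms
  set D := (x : ℝ) * l ^ 20 / r with hD
  have hxr : (x : ℝ) / r ≤ D := by
    rw [hD]
    apply div_le_div_of_nonneg_right _ hr0.le
    nlinarith
  have t1 : (m0 : ℝ) ≤ D := by
    refine hm0a.trans (le_trans ?_ hxr)
    apply div_le_div_of_nonneg_left hx0.le hr0
    nlinarith
  have t2 : ((x / J : ℕ) : ℝ) ≤ D := by
    refine (Nat.cast_div_le).trans (le_trans ?_ hxr)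
    exact div_le_div_of_nonneg_left hx0.le hr0 hJ1
  have t3 : (1 : ℝ) ≤ D := by
    refine le_trans ?_ hxr
    rw [le_div_iff₀ hr0, ← hs2]
    nlinarith
  have hBJ : (B : ℝ) * J ≤ 34 * s * L * r := by
    calc (B : ℝ) * J ≤ (17 * s * L) * (2 * r) := mul_le_mul hBr hJ2 (by positivity) (by positivity)
      _ = 34 * s * L * r := by ring
  have t4 : (B : ℝ) * J ≤ D := by
    refine hBJ.trans (le_trans ?_ hxr)
    rw [le_div_iff₀ hr0, ← hs2]
    have h1 : 34 * s * L * r * r = 34 * s * L ^ 2 := by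
      rw [← hr2]
      ring
    rw [h1, sq s]
    have h2 : 34 * L ^ 2 ≤ s := by linarith [pow_pos hL 3]
    nlinarith
  have t5 : (B : ℝ) * J * T ≤ 34 * C * D := by
    calc (B : ℝ) * J * T ≤ (34 * s * L * r) * T := mul_le_mul_of_nonneg_right hBJ hT0
      _ = 34 * C * (s ^ 2 * l ^ 20 * (r * L) / L ^ 2) := by
          rw [hT]
          ring
      _ = 34 * C * D := by
          rw [hD, hs2, ← hr2]
          field_simp
  have hfin : (4 + 34 * C) * x * l ^ 20 / r = (4 + 34 * C) * D := by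
    rw [hD]
    ring
  rw [hfin]
  linarith

end Pool.Agent.WIT
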